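import Pool.Agent.H.MP_52010b_lc.Defs
import Pool.Agent.Lib.lead.CXGraphRed
import Pool.Agent.Lib.lead.CXBase

namespace Pool.Agent.H.MP_52010b_lc

open Pool.Agent.Lib.CX

def lit (φ : List (Cl3 ℕ)) (o : ℕ) : ℕ × Bool := litOf (φ.getD (o / 3) (unit 0 true), o % 3)
def bi (φ : List (Cl3 ℕ)) (o : ℕ) : ℕ := 4 * ((lit φ o).1 % (3 * φ.length)) + (!(lit φ o).2).toNat
def good (m r : ℕ) : ℕ := 14 * m + 4 * (r / 4) + if r % 4 = 1 then 3 else if r % 4 = 3 then 1 else 0
def bad (m r : ℕ) : ℕ := 14 * m + 4 * (r / 4) + if r % 4 = 1 then 1 else if r % 4 = 2 then 3 else 2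
def occ (φ : List (Cl3 ℕ)) (r : ℕ) : List ℕ :=
  ((List.range (3 * φ.length)).filter fun o => bi φ o = r).map fun o => 26 * φ.length + o
def rl (φ : List (Cl3 ℕ)) (r : ℕ) : List ℕ :=
  r :: if r < 12 * φ.length then good φ.length r :: (occ φ r ++ [bad φ.length r]) else
    [26 * φ.length + 3 * ((r - 12 * φ.length) / 2), 26 * φ.length + 3 * ((r - 12 * φ.length) / 2) + 1,
      26 * φ.length + 3 * ((r - 12 * φ.length) / 2) + 2]
def hl (φ : List (Cl3 ℕ)) (h : ℕ) : List ℕ :=
  if h < 14 * φ.length then [h] else if h < 26 * φ.length then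
    [4 * ((h - 14 * φ.length) / 4) + (h - 14 * φ.length) % 2,
      4 * ((h - 14 * φ.length) / 4) + if (h - 14 * φ.length) % 4 % 3 = 0 then 2 else 3]
  else [12 * φ.length + 2 * ((h - 26 * φ.length) / 3), bi φ (h - 26 * φ.length),
    12 * φ.length + 2 * ((h - 26 * φ.length) / 3) + 1]
def red (φ : List (Cl3 ℕ)) : Inst :=
  ((List.range (14 * φ.length)).map (rl φ), (List.range (29 * φ.length)).map fun h => (hl φ h, 2, 2))

variable {φ : List (Cl3 ℕ)} {r h : ℕ}

theorem RL_red : RL (red φ) r = if r < 14 * φ.length then rl φ r else [] := by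
  simp only [RL, red, List.getD_eq_getElem?_getD, List.getElem?_map]
  split_ifs with c <;> simp [c]
theorem H_red : (red φ).2.getD h ([], 0, 0) = if h < 29 * φ.length then (hl φ h, 2, 2) else ([], 0, 0) := by
  simp only [red, List.getD_eq_getElem?_getD, List.getElem?_map]
  split_ifs with c <;> simp [c]

theorem bi_lt (o) (h : 0 < φ.length) : bi φ o < 12 * φ.length ∧ bi φ o % 4 < 2 := by
  have := Nat.mod_lt (lit φ o).1 (show 0 < 3 * φ.length by omega)
  have := (!(lit φ o).2).toNat_le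
  unfold bi; omega

theorem mem_occ : h ∈ occ φ r ↔ 26 * φ.length ≤ h ∧ h < 29 * φ.length ∧ bi φ (h - 26 * φ.length) = r := by
  simp only [occ, List.mem_map, List.mem_filter, List.mem_range, decide_eq_true_eq]
  exact ⟨by rintro ⟨o, ⟨a, b⟩, rfl⟩; simp [b]; omega, fun ⟨a, b, c⟩ => ⟨_, ⟨by omega, c⟩, by omega⟩⟩

theorem mem_RL : h ∈ RL (red φ) r ↔ r < 14 * φ.length ∧ (h = r ∨ r < 12 * φ.length ∧ (h = good φ.length r ∨
    h = bad φ.length r ∨ 26 * φ.length ≤ h ∧ h < 29 * φ.length ∧ bi φ (h - 26 * φ.length) = r) ∨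
    12 * φ.length ≤ r ∧ 26 * φ.length ≤ h ∧ (h - 26 * φ.length) / 3 = (r - 12 * φ.length) / 2) := by
  rw [RL_red, rl]
  split_ifs with a b <;> simp [mem_occ, *]
  · omega
  · omega

theorem mem_HL : r ∈ HL (red φ) h ↔ h < 14 * φ.length ∧ r = h ∨ 14 * φ.length ≤ h ∧ h < 26 * φ.length ∧
    (r = 4 * ((h - 14 * φ.length) / 4) + (h - 14 * φ.length) % 2 ∨
      r = 4 * ((h - 14 * φ.length) / 4) + if (h - 14 * φ.length) % 4 % 3 = 0 then 2 else 3) ∨
    26 * φ.length ≤ h ∧ h < 29 * φ.length ∧ (r = 12 * φ.length + 2 * ((h - 26 * φ.length) / 3) ∨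
      r = bi φ (h - 26 * φ.length) ∨ r = 12 * φ.length + 2 * ((h - 26 * φ.length) / 3) + 1) := by
  rw [HL, H_red, hl]
  by_cases a : h < 14 * φ.length <;> by_cases b : h < 26 * φ.length <;> by_cases c : h < 29 * φ.length <;>
    simp [a, b, c] <;> omega

theorem gb (m r) : 14 * m + 4 * (r / 4) ≤ good m r ∧ good m r < 14 * m + 4 * (r / 4) + 4 ∧
    14 * m + 4 * (r / 4) ≤ bad m r ∧ bad m r < 14 * m + 4 * (r / 4) + 4 ∧ good m r ≠ bad m r := by
  unfold good bad; split_ifs <;> omega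

theorem acc_iff (φ r h) : h ∈ RL (red φ) r ↔ r ∈ HL (red φ) h := by
  rw [mem_RL, mem_HL]
  by_cases a : h < 14 * φ.length
  · have := gb φ.length r; omega
  by_cases b : h < 26 * φ.length
  · obtain ⟨d, rfl⟩ : ∃ d, h = 14 * φ.length + d := ⟨h - 14 * φ.length, by omega⟩
    have c : ¬ 26 * φ.length ≤ 14 * φ.length + d := by omega
    have : d / 4 + 1 ≤ 3 * φ.length := by omega
    simp only [Nat.add_sub_cancel_left, a, b, c, false_and, and_false, or_false, false_or, true_and, Nat.le_add_right,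
      good, bad]
    constructor
    · split_ifs <;> omega
    · split_ifs <;> omega
  · have := gb φ.length r
    by_cases c : h < 29 * φ.length
    · have := bi_lt (φ := φ) (h - 26 * φ.length) (by omega); omega
    · omega

theorem valid (φ) : Valid (red φ) := by
  refine ⟨fun r => ?_, fun h => ?_, acc_iff φ, by simp [red]⟩
  · rw [RL_red, rl]
    have := gb φ.length r
    split_ifs with a b
    · have : (occ φ r).Nodup := (List.nodup_range.filter _).map fun _ _ h => by simpa using h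
      simp only [List.nodup_cons, List.mem_cons, List.mem_append, mem_occ, List.nodup_append, this, List.not_mem_nil,
        List.nodup_nil, or_false, forall_eq, not_false_eq_true, true_and, and_true]
      exact ⟨by omega, by omega, fun _ _ => by omega⟩
    · simp; omega
    · simp
  · rw [HL, H_red, hl]
    split_ifs with a b c <;> simp
    · omega
    · omega
    · have := bi_lt (φ := φ) (h - 26 * φ.length) (by omega); omega

theorem up_red (a : h < 29 * φ.length) : up (red φ) h = 2 ∧ lo (red φ) h = 2 := by rw [up, lo, H_red, if_pos a]; simp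

theorem lt_of_mem (a : h ∈ RL (red φ) r) : h < 29 * φ.length := by
  rw [acc_iff, mem_HL] at a; omega

theorem two {M : Finset (ℕ × ℕ)} (a : 2 ≤ load M h) (r) : ∃ s, s ≠ r ∧ (s, h) ∈ M := by
  obtain ⟨⟨s, g⟩, b, c⟩ := Finset.exists_mem_ne a (r, h)
  simp only [Finset.mem_filter] at b
  obtain rfl : g = h := b.2
  exact ⟨s, fun e => c (by rw [e]), b.1⟩

theorem nopop (φ h) : ¬ Popular (red φ) h := by
  rintro ⟨a, M, ⟨⟨⟨m1, m2, -⟩, m4⟩, -⟩, b⟩
  rw [(up_red (by simpa [red] using a)).2] at b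
  obtain ⟨s, c, d⟩ := two b h
  have e := m1 _ d
  have l : s < 14 * φ.length := (mem_RL.1 e).1
  refine m4 s s ⟨mem_RL.2 ⟨l, .inl rfl⟩, fun g q => ?_, .inl ?_⟩
  · obtain rfl : g = h := congrArg Prod.snd (m2 _ q _ d rfl)
    simp [Bef, RL_red, l, rl, List.idxOf_cons_ne _ c]
  · rw [(up_red (by omega)).1]
    by_contra q
    obtain ⟨t, q1, q2⟩ := two (not_lt.1 q) s
    have := (acc_iff φ _ _).1 (m1 _ q2)
    rw [mem_HL] at this
    omega

end Pool.Agent.H.MP_52010b_lc
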