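import Pool.Agent.H.MP_52010b_lc.A

namespace Pool.Agent.H.MP_52010b_lc

open Pool.Agent.Lib.CX

variable {φ : List (Cl3 ℕ)} {r h : ℕ}

theorem idx_occ (a : r < 12 * φ.length) (b : h ∈ occ φ r) :
    Bef (RL (red φ) r) (good φ.length r) h ∧ Bef (RL (red φ) r) h (bad φ.length r) := by
  have := gb φ.length r
  have c := mem_occ.1 b
  have d : bad φ.length r ∉ occ φ r := fun q => by have := mem_occ.1 q; omega
  have := List.idxOf_lt_length_of_mem b
  rw [RL_red, if_pos (by omega), rl, if_pos a]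
  simp only [Bef]
  rw [List.idxOf_cons_ne _ (show r ≠ good _ _ by omega), List.idxOf_cons_self, List.idxOf_cons_ne _ (show r ≠ h by omega),
    List.idxOf_cons_ne _ (show good _ _ ≠ h by omega), List.idxOf_cons_ne _ (show r ≠ bad _ _ by omega),
    List.idxOf_cons_ne _ (show good _ _ ≠ bad _ _ by omega), List.idxOf_append_of_mem b, List.idxOf_append_of_notMem d]
  omega

theorem lit_ok (v : ℕ → Bool) {j} (hj : j < φ.length) :
    φ[j].ok v ↔ ∃ k < 3, v (lit φ (3 * j + k)).1 = (lit φ (3 * j + k)).2 := by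
  rw [ok_iff]
  refine exists_congr fun k => and_congr_right fun hk => ?_
  rw [lit, show (3 * j + k) / 3 = j by omega, show (3 * j + k) % 3 = k by omega, List.getD_eq_getElem _ _ hj]

theorem mem_cyc {x t} (a : x < 3 * φ.length) (b : t < 4) : r ∈ HL (red φ) (14 * φ.length + 4 * x + t) ↔
    r = 4 * x + t % 2 ∨ r = 4 * x + if t % 3 = 0 then 2 else 3 := by
  rw [HL, H_red, if_pos (by omega), hl, if_neg (by omega), if_pos (by omega),
    show 14 * φ.length + 4 * x + t - 14 * φ.length = 4 * x + t by omega, show (4 * x + t) / 4 = x by omega,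
    show (4 * x + t) % 4 = t by omega, show (4 * x + t) % 2 = t % 2 by omega]
  simp

theorem lit_lt (ok : ∀ C ∈ φ, ∀ x ∈ C.vars, x < 3 * φ.length) {o} (ho : o < 3 * φ.length) :
    bi φ o = 4 * (lit φ o).1 + (!(lit φ o).2).toNat ∧ (lit φ o).1 < 3 * φ.length := by
  have hj : o / 3 < φ.length := by omega
  have lx : (lit φ o).1 < 3 * φ.length := ok _ (List.getElem_mem hj) _ (by
    rw [lit, List.getD_eq_getElem _ _ hj]
    obtain e | e | e : o % 3 = 0 ∨ o % 3 = 1 ∨ o % 3 = 2 := by omega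
    all_goals simp [e, litOf, Cl3.vars])
  exact ⟨by rw [bi, Nat.mod_eq_of_lt lx], lx⟩

theorem fwd (ok : ∀ C ∈ φ, ∀ x ∈ C.vars, x < 3 * φ.length) {M} (hM : PStable (red φ) M) (k : 14 * φ.length ≤ M.card) :
    Sat3 φ := by
  classical
  obtain ⟨⟨m1, m2, -⟩, m4, m5⟩ := hM
  have all : ∀ r < 14 * φ.length, ∃ h, (r, h) ∈ M := fun r hr => by
    have : M.image Prod.fst = Finset.range (14 * φ.length) := Finset.eq_of_subset_of_card_le
      (fun r q => by
        obtain ⟨p, a, rfl⟩ := Finset.mem_image.1 q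
        exact Finset.mem_range.2 (mem_RL.1 (m1 p a)).1)
      (by rwa [Finset.card_image_of_injOn fun p a q b => m2 p a q b, Finset.card_range])
    obtain ⟨p, a, rfl⟩ := Finset.mem_image.1 (this ▸ Finset.mem_range.2 hr)
    exact ⟨_, a⟩
  replace m1 : ∀ {r h}, (r, h) ∈ M → h ∈ RL (red φ) r := fun a => m1 _ a
  have nz : ∀ {r h}, (r, h) ∈ M → load M h ≠ 0 := fun a => Finset.card_ne_zero.2 ⟨_, Finset.mem_filter.2 ⟨a, rfl⟩⟩
  have oth : ∀ {r h}, (r, h) ∈ M → ∃ s, s ≠ r ∧ (s, h) ∈ M ∧ s ∈ HL (red φ) h := fun {r h} a => by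
    obtain ⟨s, b, c⟩ := two ((up_red (lt_of_mem (m1 a))).2 ▸ (m4 h).resolve_left (nz a)) r
    exact ⟨s, b, c, (acc_iff _ _ _).1 (m1 c)⟩
  have un : ∀ {r g h}, (r, g) ∈ M → (r, h) ∈ M → g = h := fun a b => congrArg Prod.snd (m2 _ a _ b rfl)
  have nd : ∀ {r}, (r, r) ∉ M := fun {r} a => by
    obtain ⟨s, b, -, c⟩ := oth a
    have := (mem_RL.1 (m1 a)).1
    rw [mem_HL] at c; omega
  have ee : ∀ r < 12 * φ.length, 2 ≤ r % 4 → (r, good φ.length r) ∈ M ∨ (r, bad φ.length r) ∈ M := fun r a b => by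
    obtain ⟨h, c⟩ := all r (by omega)
    have := bi_lt (φ := φ) (h - 26 * φ.length) (by omega)
    obtain rfl | ⟨-, rfl | rfl | d⟩ | d := (mem_RL.1 (m1 c)).2
    exacts [(nd c).elim, .inl c, .inr c, by omega, by omega]
  have pr : ∀ x < 3 * φ.length, ∀ t < 4, ∀ e, 2 ≤ e → (4 * x + e, 14 * φ.length + 4 * x + t) ∈ M →
      (4 * x + t % 2, 14 * φ.length + 4 * x + t) ∈ M := fun x a t b e c d => by
    obtain ⟨s, f, g, i⟩ := oth d
    have j := (acc_iff _ _ _).1 (m1 d)
    rw [mem_cyc a b] at i j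
    rwa [show s = 4 * x + t % 2 by split_ifs at i j <;> omega] at g
  have va : ∀ x < 3 * φ.length, (4 * x, 14 * φ.length + 4 * x) ∈ M ∧ (4 * x + 1, 14 * φ.length + 4 * x + 1) ∈ M ∨
      (4 * x, 14 * φ.length + 4 * x + 2) ∈ M ∧ (4 * x + 1, 14 * φ.length + 4 * x + 3) ∈ M := fun x a => by
    have e2 := ee (4 * x + 2) (by omega) (by omega)
    have e3 := ee (4 * x + 3) (by omega) (by omega)
    simp only [good, bad, show (4 * x + 2) / 4 = x by omega, show (4 * x + 3) / 4 = x by omega,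
      show (4 * x + 2) % 4 = 2 by omega, show (4 * x + 3) % 4 = 3 by omega] at e2 e3
    obtain p | p := e2 <;> obtain q | q := e3
    · exact .inl ⟨pr x a 0 (by omega) 2 le_rfl p, pr x a 1 (by omega) 3 (by omega) q⟩
    · have := un (pr x a 0 (by omega) 2 le_rfl p) (pr x a 2 (by omega) 3 (by omega) q); omega
    · have := un (pr x a 3 (by omega) 2 le_rfl p) (pr x a 1 (by omega) 3 (by omega) q); omega
    · exact .inr ⟨pr x a 2 (by omega) 3 (by omega) q, pr x a 3 (by omega) 2 le_rfl p⟩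
  refine ⟨fun x => decide ((4 * x, 14 * φ.length + 4 * x) ∈ M), fun C hC => ?_⟩
  obtain ⟨j, hj, rfl⟩ := List.getElem_of_mem hC
  obtain ⟨h, c⟩ := all (12 * φ.length + 2 * j) (by omega)
  obtain ⟨o, ho, rfl⟩ : ∃ o < 3, h = 26 * φ.length + (3 * j + o) := by
    obtain rfl | d | d := (mem_RL.1 (m1 c)).2
    exacts [(nd c).elim, by omega, ⟨(h - 26 * φ.length) % 3, by omega, by omega⟩]
  refine (lit_ok _ hj).2 ⟨o, ho, ?_⟩
  obtain ⟨eb, lx⟩ := lit_lt ok (show 3 * j + o < 3 * φ.length by omega)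
  have bl := bi_lt (φ := φ) (3 * j + o) (by omega)
  have oc : 26 * φ.length + (3 * j + o) ∈ occ φ (bi φ (3 * j + o)) := mem_occ.2 ⟨by omega, by omega, by simp⟩
  have nb : (bi φ (3 * j + o), bad φ.length (bi φ (3 * j + o))) ∉ M := fun q => by
    obtain ⟨s, f, g, i⟩ := oth c
    have := gb φ.length (bi φ (3 * j + o))
    have n : s ≠ bi φ (3 * j + o) := fun e => by have := un (e ▸ g) q; omega
    rw [mem_HL, Nat.add_sub_cancel_left] at i
    refine m5 _ _ (nz c) ⟨mem_RL.2 ⟨by omega, .inr (.inl ⟨bl.1, .inr (.inr (mem_occ.1 oc))⟩)⟩,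
      fun g e => un q e ▸ (idx_occ bl.1 oc).2, .inr ⟨s, g, ?_⟩⟩
    rw [HL, H_red, if_pos (by omega), hl, if_neg (by omega), if_neg (by omega), Nat.add_sub_cancel_left]
    simp only [Bef]
    rw [List.idxOf_cons_ne _ (by omega), List.idxOf_cons_self, List.idxOf_cons_ne _ (by omega), List.idxOf_cons_ne _ n.symm]
    omega
  rw [eb] at nb
  revert nb
  generalize lit φ (3 * j + o) = l at lx
  obtain ⟨x, _ | _⟩ := l <;> obtain p | p := va x lx <;>
    simp [bad, p, show (4 * x + 1) / 4 = x by omega, show (4 * x + 1) % 4 = 1 by omega]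
  exact fun _ q => by have := un q p.1; omega

def asg (m : ℕ) (v : ℕ → Bool) (k : ℕ → ℕ) (r : ℕ) : ℕ :=
  if r < 12 * m then 14 * m + 4 * (r / 4) + (if v (r / 4) then r % 2 else if r % 4 % 3 = 0 then 2 else 3)
  else 26 * m + (3 * ((r - 12 * m) / 2) + k ((r - 12 * m) / 2))
def par (m : ℕ) (v : ℕ → Bool) (r : ℕ) : ℕ :=
  if r < 12 * m then 4 * (r / 4) + (if v (r / 4) then (r + 2) % 4 else 3 - r % 4) else 2 * (r / 2) + (r + 1) % 2

theorem asg_eq {m v k r s} (hk : ∀ j, k j < 3) (a : r < 14 * m) (b : s < 14 * m) :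
    asg m v k s = asg m v k r ↔ s = r ∨ s = par m v r := by
  have := hk ((r - 12 * m) / 2)
  have := hk ((s - 12 * m) / 2)
  by_cases c : r < 12 * m <;> by_cases d : s < 12 * m <;> simp only [asg, par, c, d, if_true, if_false]
  · by_cases e : s / 4 = r / 4
    · rw [e]; split_ifs <;> omega
    · split_ifs <;> omega
  · have : r / 4 + 1 ≤ 3 * m := by omega
    constructor <;> split_ifs <;> omega
  · have : s / 4 + 1 ≤ 3 * m := by omega
    constructor <;> split_ifs <;> omega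
  · by_cases e : (s - 12 * m) / 2 = (r - 12 * m) / 2
    · rw [e]; omega
    · omega

theorem par_lt {m v r} (a : r < 14 * m) : par m v r < 14 * m ∧ par m v r ≠ r := by
  unfold par; split_ifs <;> omega

theorem bwd (ok : ∀ C ∈ φ, ∀ x ∈ C.vars, x < 3 * φ.length) (h : Sat3 φ) :
    ∃ M, PStable (red φ) M ∧ 14 * φ.length ≤ M.card := by
  obtain ⟨v, hv⟩ := h
  have : ∀ j, ∃ k < 3, j < φ.length → v (lit φ (3 * j + k)).1 = (lit φ (3 * j + k)).2 := fun j => by
    by_cases c : j < φ.length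
    · simpa [c] using (lit_ok v c).1 (hv _ (List.getElem_mem c))
    · exact ⟨0, by omega, fun q => (c q).elim⟩
  choose k k1 k2 using this
  let M := (Finset.range (14 * φ.length)).image fun r => (r, asg φ.length v k r)
  have m : ∀ {r h}, (r, h) ∈ M ↔ r < 14 * φ.length ∧ asg φ.length v k r = h := by simp [M]
  have ld : ∀ h, load M h = 0 ∨ ∃ r < 14 * φ.length, asg φ.length v k r = h ∧ load M h = 2 := fun h => by
    rw [or_iff_not_imp_left]
    intro q
    obtain ⟨⟨r, g⟩, a⟩ := Finset.card_ne_zero.1 q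
    obtain ⟨b, rfl⟩ := Finset.mem_filter.1 a
    obtain ⟨c, rfl⟩ := m.1 b
    refine ⟨r, c, rfl, Finset.card_eq_two.2 ⟨(r, asg φ.length v k r), (par φ.length v r, asg φ.length v k r),
      by simp [(par_lt c).2.symm], Finset.ext fun ⟨s, g⟩ => ?_⟩⟩
    simp only [Finset.mem_filter, m, Finset.mem_insert, Finset.mem_singleton, Prod.mk.injEq]
    constructor
    · rintro ⟨⟨d, rfl⟩, e⟩
      simpa [e] using (asg_eq k1 c d).1 e
    · rintro (⟨rfl, rfl⟩ | ⟨rfl, rfl⟩)
      exacts [⟨⟨c, rfl⟩, rfl⟩, ⟨⟨(par_lt c).1, (asg_eq k1 c (par_lt c).1).2 (.inr rfl)⟩, rfl⟩]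
  have ac : ∀ r < 14 * φ.length, asg φ.length v k r ∈ RL (red φ) r := fun r a => by
    have := k1 ((r - 12 * φ.length) / 2)
    refine mem_RL.2 ⟨a, .inr ?_⟩
    unfold asg good bad
    split_ifs <;> omega
  refine ⟨M, ⟨⟨fun ⟨r, h⟩ a => (m.1 a).2 ▸ ac r (m.1 a).1, fun ⟨r, h⟩ a ⟨s, g⟩ b e => ?_, fun h => ?_⟩, fun h => ?_,
    fun r h a ⟨b, c, d⟩ => ?_⟩, by rw [Finset.card_image_of_injective _ fun _ _ e => congrArg Prod.fst e]; simp⟩
  · obtain rfl : r = s := e
    rw [← (m.1 a).2, ← (m.1 b).2]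
  · obtain e | ⟨r, a, rfl, e⟩ := ld h
    · omega
    · rw [e, (up_red (lt_of_mem (ac r a))).1]
  · exact (ld h).imp id fun ⟨r, a, b, e⟩ => by rw [e, (up_red (b ▸ lt_of_mem (ac r a))).2]
  · obtain ⟨s, e, rfl, -⟩ := (ld h).resolve_left a
    have l := (mem_RL.1 b).1
    have c := c _ (m.2 ⟨l, rfl⟩)
    have n := (asg_eq (v := v) k1 e l).not.1 fun q => by simp [Bef, q] at c
    have j := k1 ((s - 12 * φ.length) / 2)
    have b' := (acc_iff _ _ _).1 b
    by_cases t : s < 12 * φ.length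
    · simp only [asg, par, t, if_true] at b' n
      rw [mem_cyc (by omega) (by split_ifs <;> omega)] at b'
      split_ifs at b' n <;> omega
    · simp only [asg, par, t, if_false] at b' n
      rw [mem_HL, Nat.add_sub_cancel_left] at b'
      have o : 3 * ((s - 12 * φ.length) / 2) + k ((s - 12 * φ.length) / 2) < 3 * φ.length := by omega
      obtain rfl : r = bi φ (3 * ((s - 12 * φ.length) / 2) + k ((s - 12 * φ.length) / 2)) := by omega
      have bl := (bi_lt (φ := φ) (3 * ((s - 12 * φ.length) / 2) + k ((s - 12 * φ.length) / 2)) (by omega)).1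
      have := (idx_occ (h := asg φ.length v k s) bl (mem_occ.2 (by simp only [asg, t, if_false]; simp; omega))).1
      refine lt_asymm this ((?_ : _ = good _ _) ▸ c)
      have := k2 ((s - 12 * φ.length) / 2) (by omega)
      rw [asg, if_pos bl, (lit_lt ok o).1]
      generalize lit φ _ = l at this
      obtain ⟨x, _ | _⟩ := l <;> dsimp only at this <;>
        simp [this, good, show (4 * x + 1) / 4 = x by omega, show (4 * x + 1) % 4 = 1 by omega,
          show 4 * x % 2 = 0 by omega]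

set_option synthInstance.maxSize 2000 in
theorem pt_red : PT red := by
  have a : PT fun p : List (Cl3 ℕ) × ℕ => bi p.1 p.2 := by unfold bi lit litOf unit; fun_prop
  have b : PT fun p : List (Cl3 ℕ) × ℕ => rl p.1 p.2 := by unfold rl occ good bad; fun_prop
  have c : PT fun p : List (Cl3 ℕ) × ℕ => hl p.1 p.2 := by unfold hl; fun_prop
  unfold red; fun_prop

attribute [local irreducible] red in
theorem hardA : NPHard fun a : {I // Valid I} × ℕ => ∃ M, PStable a.1.1 M ∧ a.2 ≤ M.card :=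
  NPHard.of_sat3 (fun φ => (⟨red φ, valid φ⟩, 14 * φ.length)) ((pt_red.subtype _).pair (by fun_prop)) fun _ h =>
    ⟨bwd h, fun ⟨_, a, b⟩ => fwd h a b⟩

attribute [local irreducible] red in
theorem hardB : NPHard fun a : {I // Valid I} × ℕ => ∃ M, PopStable a.1.1 M ∧ a.2 ≤ M.card :=
  NPHard.of_sat3 (fun φ => (⟨red φ, valid φ⟩, 14 * φ.length)) ((pt_red.subtype _).pair (by fun_prop)) fun φ h =>
    ⟨fun q => let ⟨M, a, b⟩ := bwd h q; ⟨M, ⟨a, fun g c => (nopop φ g c).elim⟩, b⟩, fun ⟨_, a, b⟩ => fwd h a.1 b⟩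

end Pool.Agent.H.MP_52010b_lc
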