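import Pool.Agent.Lib.lead.CXDefs

namespace Pool.Agent.H.MP_52010b_lc

/-- preference lists of the residents; preference list, lower quota and upper quota of the hospitals -/
abbrev Inst := List (List ℕ) × List (List ℕ × ℕ × ℕ)

def RL (I : Inst) (r : ℕ) : List ℕ := I.1.getD r []
def HL (I : Inst) (h : ℕ) : List ℕ := (I.2.getD h ([], 0, 0)).1
def lo (I : Inst) (h : ℕ) : ℕ := (I.2.getD h ([], 0, 0)).2.1
def up (I : Inst) (h : ℕ) : ℕ := (I.2.getD h ([], 0, 0)).2.2

/-- strict lists, mutual acceptability, and all lower and upper quotas equal to two -/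
def Valid (I : Inst) : Prop :=
  (∀ r, (RL I r).Nodup) ∧ (∀ h, (HL I h).Nodup) ∧ (∀ r h, h ∈ RL I r ↔ r ∈ HL I h) ∧ ∀ q ∈ I.2, q.2 = (2, 2)

/-- `x` comes before `y` in the list -/
def Bef (l : List ℕ) (x y : ℕ) : Prop := l.idxOf x < l.idxOf y

def load (M : Finset (ℕ × ℕ)) (h : ℕ) : ℕ := (M.filter fun p => p.2 = h).card

/-- a matching when lower quotas are ignored -/
def IsM0 (I : Inst) (M : Finset (ℕ × ℕ)) : Prop :=
  (∀ p ∈ M, p.2 ∈ RL I p.1) ∧ (∀ p ∈ M, ∀ q ∈ M, p.1 = q.1 → p = q) ∧ ∀ h, load M h ≤ up I h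

/-- an acceptable pair in which both sides would like to be matched together -/
def Blocks (I : Inst) (M : Finset (ℕ × ℕ)) (r h : ℕ) : Prop :=
  h ∈ RL I r ∧ (∀ g, (r, g) ∈ M → Bef (RL I r) h g) ∧ (load M h < up I h ∨ ∃ s, (s, h) ∈ M ∧ Bef (HL I h) r s)

/-- pairwise stable matchings: every hospital is closed or meets its quotas, and no open hospital blocks -/
def PStable (I : Inst) (M : Finset (ℕ × ℕ)) : Prop :=
  IsM0 I M ∧ (∀ h, load M h = 0 ∨ lo I h ≤ load M h) ∧ ∀ r h, load M h ≠ 0 → ¬ Blocks I M r h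

/-- stable matchings of the instance without lower quotas -/
def StableJ (I : Inst) (M : Finset (ℕ × ℕ)) : Prop := IsM0 I M ∧ ∀ r h, ¬ Blocks I M r h

/-- the resident-optimal stable matching of the instance without lower quotas -/
def ResOpt (I : Inst) (M : Finset (ℕ × ℕ)) : Prop :=
  StableJ I M ∧ ∀ N, StableJ I N → ∀ r g, (r, g) ∈ N → ∃ h, (r, h) ∈ M ∧ (h = g ∨ Bef (RL I r) h g)

def Popular (I : Inst) (h : ℕ) : Prop := h < I.2.length ∧ ∃ M, ResOpt I M ∧ lo I h ≤ load M h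

/-- popular pairwise stable matchings -/
def PopStable (I : Inst) (M : Finset (ℕ × ℕ)) : Prop := PStable I M ∧ ∀ h, Popular I h → load M h ≠ 0

end Pool.Agent.H.MP_52010b_lc
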